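import Mathlib

/-! Few primes of the form `2^n ± 2^k ± 1` for suitable exponents `n`. -/

set_option autoImplicit false

namespace Pool.Agent.MP_0df29f_nt

open Finset

/-- the density of the integers that avoid the primes of `T` -/
noncomputable def den (T : Finset ℕ) : ℝ := ∏ p ∈ T, (1 - (p : ℝ)⁻¹)

theorem half_le {p : ℕ} (hp : p.Prime) : (1 / 2 : ℝ) ≤ 1 - (p : ℝ)⁻¹ := by
  have h : (2 : ℝ) ≤ p := by exact_mod_cast hp.two_le
  have := inv_anti₀ (by norm_num) h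
  linarith

theorem den_pos {T : Finset ℕ} (h : ∀ p ∈ T, p.Prime) : 0 < den T :=
  prod_pos fun p hp => lt_of_lt_of_le (by norm_num) (half_le (h p hp))

theorem mertens (z : ℕ) : den (z + 1).primesBelow * Real.log (z + 1) ≤ 1 := by
  let f : ℕ →* ℝ := ⟨⟨fun n => (n : ℝ)⁻¹, by simp⟩, fun a b => by simp [mul_comm]⟩
  have hs := (EulerProduct.summable_and_hasSum_smoothNumbers_prod_primesBelow_geometric (f := f)
    (fun {p} hp => by
      change ‖(p : ℝ)⁻¹‖ < 1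
      rw [norm_inv, Real.norm_natCast]
      exact inv_lt_one_of_one_lt₀ (by exact_mod_cast hp.one_lt)) (z + 1)).2
  let g : Fin z → (z + 1).smoothNumbers := fun i =>
    ⟨i + 1, Nat.mem_smoothNumbers_of_lt (Nat.succ_pos _) (by omega)⟩
  have hg : Function.Injective g := fun i j h => Fin.ext (by
    have := congrArg Subtype.val h
    simpa [g] using this)
  have h1 := sum_le_hasSum (univ.map ⟨g, hg⟩) (fun m _ => by
    change (0 : ℝ) ≤ ((m : ℕ) : ℝ)⁻¹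
    positivity) hs
  rw [sum_map] at h1
  have h2 : (harmonic z : ℝ) = ∑ i : Fin z, f (g i) := by
    rw [harmonic, ← Fin.sum_univ_eq_sum_range (fun i => ((i + 1 : ℕ) : ℚ)⁻¹) z]
    push_cast
    refine sum_congr rfl fun i _ => ?_
    simp [f, g]
  have h3 := log_add_one_le_harmonic z
  have h4 : ∏ p ∈ (z + 1).primesBelow, (1 - f p)⁻¹ = (den (z + 1).primesBelow)⁻¹ := by
    rw [den, ← prod_inv_distrib]
    rfl
  have h5 := den_pos fun p (hp : p ∈ (z + 1).primesBelow) => Nat.prime_of_mem_primesBelow hp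
  rw [h4] at h1
  push_cast at h3
  rw [h2] at h3
  have := mul_le_mul_of_nonneg_left (h3.trans h1) h5.le
  rwa [mul_inv_cancel₀ h5.ne'] at this

theorem exists_sub {τ : ℝ} (hτ : τ ≤ 1) (S : Finset ℕ) (hS : ∀ p ∈ S, p.Prime) (h : den S ≤ τ) :
    ∃ T ⊆ S, τ / 2 ≤ den T ∧ den T ≤ τ := by
  induction S using Finset.induction_on with
  | empty =>
    have e : den ∅ = 1 := prod_empty
    exact ⟨∅, Subset.rfl, by linarith, h⟩
  | insert p S hp ih =>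
    rcases le_total (den S) τ with k | k
    · obtain ⟨T, h1, h2⟩ := ih (fun q hq => hS q (mem_insert_of_mem hq)) k
      exact ⟨T, h1.trans (subset_insert _ _), h2⟩
    · refine ⟨_, Subset.rfl, ?_, h⟩
      have h1 := half_le (hS p (mem_insert_self _ _))
      have h2 := den_pos fun q hq => hS q (mem_insert_of_mem hq)
      rw [den, prod_insert hp]
      change τ / 2 ≤ _ * den S
      nlinarith

theorem den_sdiff {S T : Finset ℕ} (h : T ⊆ S) : den (S \ T) * den T = den S := prod_sdiff h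

theorem exists_three {τ : ℝ} (h0 : 0 < τ) (hτ : τ ≤ 1) (S : Finset ℕ) (hS : ∀ p ∈ S, p.Prime)
    (h : den S ≤ τ ^ 3 / 4) : ∃ A B C : Finset ℕ, A ⊆ S ∧ B ⊆ S \ A ∧ C = (S \ A) \ B ∧
      den A ≤ τ ∧ den B ≤ τ ∧ den C ≤ τ := by
  have t2 : τ ^ 2 ≤ τ := by nlinarith
  obtain ⟨A, hA, a1, a2⟩ := exists_sub hτ S hS (by nlinarith)
  have hS' : ∀ p ∈ S \ A, p.Prime := fun p hp => hS p (mem_sdiff.1 hp).1
  have e1 := den_sdiff hA
  have p1 := den_pos hS'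
  have h1 : den (S \ A) ≤ τ ^ 2 / 2 := by
    refine le_of_mul_le_mul_right ?_ (half_pos h0)
    nlinarith [mul_le_mul_of_nonneg_left a1 p1.le]
  obtain ⟨B, hB, b1, b2⟩ := exists_sub hτ (S \ A) hS' (by nlinarith)
  have e2 := den_sdiff hB
  have p2 := den_pos fun p (hp : p ∈ (S \ A) \ B) => hS' p (mem_sdiff.1 hp).1
  refine ⟨A, B, _, hA, hB, rfl, a2, b2, le_of_mul_le_mul_right ?_ (half_pos h0)⟩
  nlinarith [mul_le_mul_of_nonneg_left b1 p2.le]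

theorem totient_prod {T : Finset ℕ} (h : ∀ p ∈ T, p.Prime) :
    ((∏ p ∈ T, p).totient : ℝ) = (∏ p ∈ T, p : ℕ) * den T := by
  have := congrArg (Rat.cast : ℚ → ℝ) (Nat.totient_eq_mul_prod_factors (∏ p ∈ T, p))
  rw [Nat.primeFactors_prod h] at this
  simpa [den] using this

theorem count_coprime {Q n : ℕ} {τ : ℝ} (hQ : 0 < Q) (hn : Q ≤ n) (h : (Q.totient : ℝ) ≤ Q * τ)
    (c : ℕ) : (#{k ∈ range n | Q.Coprime (k + c)} : ℝ) ≤ 2 * τ * n := by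
  have h1 : #{k ∈ range n | Q.Coprime (k + c)} ≤ #{x ∈ Ico c (c + n) | Q.Coprime x} :=
    card_le_card_of_injOn (· + c) (fun k hk => by
      simp only [coe_filter, mem_range, Set.mem_ofPred_eq, mem_Ico] at hk ⊢
      exact ⟨⟨by omega, by omega⟩, hk.2⟩) fun a _ b _ e => by simpa using e
  have h2 := h1.trans (Nat.Ico_filter_coprime_le c n hQ.ne')
  have h3 : Q * (n / Q + 1) ≤ 2 * n := by
    have := Nat.mul_div_le n Q
    nlinarith
  have h4 : (Q : ℝ) * ((n / Q + 1 : ℕ) : ℝ) ≤ 2 * n := by exact_mod_cast h3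
  have h5 : 0 ≤ τ := by
    have : (0 : ℝ) < Q := by exact_mod_cast hQ
    exact nonneg_of_mul_nonneg_right ((Nat.cast_nonneg _).trans h) this |> fun k => k
  calc (#{k ∈ range n | Q.Coprime (k + c)} : ℝ) ≤ Q.totient * ((n / Q + 1 : ℕ) : ℝ) := by
        exact_mod_cast h2
    _ ≤ Q * τ * ((n / Q + 1 : ℕ) : ℝ) := by gcongr
    _ ≤ 2 * τ * n := by nlinarith [mul_le_mul_of_nonneg_left h4 h5]

theorem count_dvd {Q n : ℕ} (hn : Q ≤ n) (c : ℕ) :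
    (#{k ∈ range n | Q ∣ k + c} : ℝ) * Q ≤ 2 * n := by
  have h1 : #{k ∈ range n | Q ∣ k + c} ≤ #(range (n / Q + 1)) :=
    card_le_card_of_injOn (· / Q) (fun k hk => by
      simp only [coe_filter, mem_range, Set.mem_ofPred_eq, coe_range, Set.mem_Iio] at hk ⊢
      exact Nat.lt_succ_of_le (Nat.div_le_div_right hk.1.le)) fun a ha b hb e => by
        have ha' := (mem_filter.1 ha).2
        have hb' := (mem_filter.1 hb).2
        have h2 : a ≡ b [MOD Q] := Nat.ModEq.add_right_cancel' c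
          (((Nat.modEq_zero_iff_dvd).2 ha').trans ((Nat.modEq_zero_iff_dvd).2 hb').symm)
        rw [← Nat.div_add_mod a Q, ← Nat.div_add_mod b Q, show a / Q = b / Q from e, h2]
  rw [card_range] at h1
  have h3 : (n / Q + 1) * Q ≤ 2 * n := by
    have := Nat.mul_div_le n Q
    nlinarith
  exact_mod_cast (Nat.mul_le_mul_right Q h1).trans h3

theorem pow_one_mod {g a : ℕ} (h : g ∣ a) : (2 ^ g - 1 : ℤ) ∣ 2 ^ a - 1 := by
  obtain ⟨c, rfl⟩ := h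
  simpa [pow_mul] using sub_dvd_pow_sub_pow ((2 : ℤ) ^ g) 1 c

/-- a large prime has no divisor between `2` and `2 ^ M` -/
theorem not_dvd {p M : ℕ} (hp : p.Prime) (h : (2 : ℤ) ^ M < p) {D : ℤ} (h1 : 1 < D)
    (h2 : D ≤ 2 ^ M) (h3 : Odd D) : ¬ D ∣ 2 * p := by
  intro k
  lift D to ℕ using by omega
  have k1 : D ∣ 2 * p := by exact_mod_cast k
  have k2 : D ∣ p := (Nat.coprime_two_right.2 (by exact_mod_cast h3)).dvd_of_dvd_mul_left k1
  rcases (Nat.dvd_prime hp).1 k2 with e | e <;> omega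

theorem mer {p M g : ℕ} (hp : p.Prime) (h : (2 : ℤ) ^ M < p) (h1 : g ≠ 1) (h0 : g ≠ 0)
    (h2 : g ≤ M) : ¬ (2 ^ g - 1 : ℤ) ∣ 2 * p := by
  have a1 : (2 : ℤ) ^ 2 ≤ 2 ^ g := pow_le_pow_right₀ one_le_two (by omega)
  have a2 : (2 : ℤ) ^ g ≤ 2 ^ M := pow_le_pow_right₀ one_le_two h2
  exact not_dvd hp h (by omega) (by omega)
    ((even_two.pow_of_ne_zero h0).sub_odd odd_one)

theorem patA {p M J n k : ℕ} (hp : p.Prime) (h : (2 : ℤ) ^ M < p) (hJ : 2 ^ J ≤ M)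
    (hn : 2 ^ J ∣ n) (h0 : n ≠ 0) (e : (p : ℤ) = 2 ^ n + 2 ^ k + 1) : 2 ^ J ∣ k + (n - 1) := by
  by_contra hc
  obtain ⟨j, t, ht, e1⟩ := Nat.exists_eq_two_pow_mul_odd (n := k + (n - 1))
    fun k0 => hc (k0 ▸ dvd_zero _)
  have hj : j < J := not_le.1 fun k => hc (e1 ▸ (pow_dvd_pow 2 k).mul_right t)
  have d1 : (2 ^ 2 ^ j + 1 : ℤ) ∣ 2 ^ (k + (n - 1)) + 1 := by
    simpa [e1, pow_mul] using ht.add_dvd_pow_add_pow ((2 : ℤ) ^ 2 ^ j) 1
  have d2 : (2 ^ 2 ^ j + 1 : ℤ) ∣ 2 ^ n - 1 :=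
    Dvd.dvd.trans ⟨2 ^ 2 ^ j - 1, by rw [pow_succ, pow_mul]; ring⟩
      (pow_one_mod ((pow_dvd_pow 2 (Nat.succ_le_of_lt hj)).trans hn))
  obtain ⟨m, rfl⟩ := Nat.exists_eq_add_one_of_ne_zero h0
  have a1 : 2 ^ j + 1 ≤ M := by
    have := Nat.pow_lt_pow_right (a := 2) (by norm_num) hj
    omega
  have a2 : (2 : ℤ) ^ (2 ^ j + 1) ≤ 2 ^ M := pow_le_pow_right₀ one_le_two a1
  have a3 : (0 : ℤ) < 2 ^ 2 ^ j := by positivity
  refine not_dvd hp h (D := 2 ^ 2 ^ j + 1) (by omega) (by rw [pow_succ] at a2; omega)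
    ((even_two.pow_of_ne_zero (by positivity)).add_one) (Dvd.dvd.mul_left ?_ 2)
  have : (p : ℤ) = 2 * (2 ^ (k + (m + 1 - 1)) + 1) + (1 - 2 ^ k) * (2 ^ (m + 1) - 1) := by
    rw [e, Nat.add_sub_cancel]
    ring
  rw [this]
  exact (d1.mul_left 2).add (d2.mul_left _)

theorem patB {p M Q n k : ℕ} (hp : p.Prime) (h : (2 : ℤ) ^ M < p) (hQ : Q ≤ M) (h1 : 0 < Q)
    (hn : Q ∣ n) (h0 : n ≠ 0) (e : (p : ℤ) = 2 ^ n - 2 ^ k + 1) : Q.Coprime (k + (n - 1)) := by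
  by_contra hc
  refine mer hp h hc (Nat.gcd_pos_of_pos_left _ h1).ne' ((Nat.gcd_le_left _ h1).trans hQ)
    (Dvd.dvd.mul_left ?_ 2)
  have d1 := pow_one_mod (Nat.gcd_dvd_right Q (k + (n - 1)))
  have d2 := pow_one_mod ((Nat.gcd_dvd_left Q (k + (n - 1))).trans hn)
  obtain ⟨m, rfl⟩ := Nat.exists_eq_add_one_of_ne_zero h0
  have : (p : ℤ) = (1 + 2 ^ k) * (2 ^ (m + 1) - 1) - 2 * (2 ^ (k + (m + 1 - 1)) - 1) := by
    rw [e, Nat.add_sub_cancel]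
    ring
  rw [this]
  exact (d2.mul_left _).sub (d1.mul_left 2)

theorem patC {p M Q n k : ℕ} (hp : p.Prime) (h : (2 : ℤ) ^ M < p) (hQ : Q ≤ M) (h1 : 0 < Q)
    (hn : Q ∣ n + 1) (e : (p : ℤ) = 2 ^ n + 2 ^ k - 1) : Q.Coprime (k + 1) := by
  by_contra hc
  refine mer hp h hc (Nat.gcd_pos_of_pos_left _ h1).ne' ((Nat.gcd_le_left _ h1).trans hQ) ?_
  have d1 := pow_one_mod (Nat.gcd_dvd_right Q (k + 1))
  have d2 := pow_one_mod ((Nat.gcd_dvd_left Q (k + 1)).trans hn)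
  have : 2 * (p : ℤ) = (2 ^ (k + 1) - 1) + (2 ^ (n + 1) - 1) := by
    rw [e]
    ring
  rw [this]
  exact d1.add d2

theorem patD {p M Q n k : ℕ} (hp : p.Prime) (h : (2 : ℤ) ^ M < p) (hQ : Q ≤ M) (h1 : 0 < Q)
    (hn : Q ∣ n - 1) (h0 : n ≠ 0) (e : (p : ℤ) = 2 ^ n - 2 ^ k - 1) : Q.Coprime (k + 0) := by
  by_contra hc
  refine mer hp h hc (Nat.gcd_pos_of_pos_left _ h1).ne' ((Nat.gcd_le_left _ h1).trans hQ)
    (Dvd.dvd.mul_left ?_ 2)
  have d1 := pow_one_mod (Nat.gcd_dvd_right Q (k + 0))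
  have d2 := pow_one_mod ((Nat.gcd_dvd_left Q (k + 0)).trans hn)
  obtain ⟨m, rfl⟩ := Nat.exists_eq_add_one_of_ne_zero h0
  have : (p : ℤ) = 2 * (2 ^ (m + 1 - 1) - 1) - (2 ^ (k + 0) - 1) := by
    rw [e, Nat.add_sub_cancel]
    ring
  rw [this]
  exact (d2.mul_left 2).sub d1

theorem card_le {M J Q₁ Q₂ Q₃ n : ℕ} (hn : M + 2 ≤ n) (hJ : 2 ^ J ≤ M) (l1 : Q₁ ≤ M)
    (l2 : Q₂ ≤ M) (l3 : Q₃ ≤ M) (p1 : 0 < Q₁) (p2 : 0 < Q₂) (p3 : 0 < Q₃) (d0 : 2 ^ J ∣ n)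
    (d1 : Q₁ ∣ n) (d2 : Q₂ ∣ n - 1) (d3 : Q₃ ∣ n + 1) :
    {p : ℕ | p.Prime ∧ ∃ k < n, ∃ e₁ e₂ : ℤ, (e₁ = 1 ∨ e₁ = -1) ∧ (e₂ = 1 ∨ e₂ = -1) ∧
      (p : ℤ) = 2 ^ n + e₁ * 2 ^ k + e₂}.ncard ≤
    #{k ∈ range n | 2 ^ J ∣ k + (n - 1)} + #{k ∈ range n | Q₁.Coprime (k + (n - 1))} +
      #{k ∈ range n | Q₃.Coprime (k + 1)} + #{k ∈ range n | Q₂.Coprime (k + 0)} := by
  have h0 : n ≠ 0 := by omega
  refine le_trans (Set.ncard_le_ncard (t := ↑(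
    {k ∈ range n | 2 ^ J ∣ k + (n - 1)}.image (fun k => (2 ^ n + 2 ^ k + 1 : ℤ).toNat) ∪
    {k ∈ range n | Q₁.Coprime (k + (n - 1))}.image (fun k => (2 ^ n - 2 ^ k + 1 : ℤ).toNat) ∪
    {k ∈ range n | Q₃.Coprime (k + 1)}.image (fun k => (2 ^ n + 2 ^ k - 1 : ℤ).toNat) ∪
    {k ∈ range n | Q₂.Coprime (k + 0)}.image (fun k => (2 ^ n - 2 ^ k - 1 : ℤ).toNat))) ?_
    (finite_toSet _)) ?_
  · rintro p ⟨hp, k, hk, e₁, e₂, h1, h2, e⟩
    have big : (2 : ℤ) ^ M < p := by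
      obtain ⟨m, rfl⟩ := Nat.exists_eq_add_one_of_ne_zero h0
      have a1 : (2 : ℤ) ^ k ≤ 2 ^ m := pow_le_pow_right₀ one_le_two (by omega)
      have a2 : (2 : ℤ) ^ (M + 1) ≤ 2 ^ m := pow_le_pow_right₀ one_le_two (by omega)
      have a3 : (2 : ℤ) ^ 1 ≤ 2 ^ M :=
        pow_le_pow_right₀ one_le_two (Nat.one_le_two_pow.trans hJ)
      have a4 : (0 : ℤ) < 2 ^ k := by positivity
      rw [pow_succ] at a2 e
      rcases h1 with rfl | rfl <;> rcases h2 with rfl | rfl <;> omega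
    simp only [coe_union, coe_image, coe_filter, mem_range, Set.mem_union, Set.mem_image,
      Set.mem_ofPred_eq]
    rcases h1 with rfl | rfl <;> rcases h2 with rfl | rfl
    · exact Or.inl (Or.inl (Or.inl ⟨k, ⟨hk, patA hp big hJ d0 h0 (by omega)⟩, by omega⟩))
    · exact Or.inl (Or.inr ⟨k, ⟨hk, patC hp big l3 p3 d3 (by omega)⟩, by omega⟩)
    · exact Or.inl (Or.inl (Or.inr ⟨k, ⟨hk, patB hp big l1 p1 d1 h0 (by omega)⟩, by omega⟩))
    · exact Or.inr ⟨k, ⟨hk, patD hp big l2 p2 d2 h0 (by omega)⟩, by omega⟩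
  · rw [Set.ncard_coe_finset]
    refine (card_union_le _ _).trans (add_le_add ((card_union_le _ _).trans (add_le_add
      ((card_union_le _ _).trans (add_le_add card_image_le card_image_le)) card_image_le))
      card_image_le)

theorem crt {a b c : ℕ} (ha : 0 < a) (hb : 0 < b) (hc : 0 < c) (h1 : a.Coprime b)
    (h2 : (a * b).Coprime c) : ∃ n, 4 * (a * b * c) ≤ n ∧ n ≤ 5 * (a * b * c) ∧ a ∣ n ∧
      b ∣ n - 1 ∧ c ∣ n + 1 := by
  obtain ⟨r, r1, r2⟩ := Nat.chineseRemainder h1 0 1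
  obtain ⟨s, s1, s2⟩ := Nat.chineseRemainder h2 r (c - 1)
  have hM : 0 < a * b * c := by positivity
  have e : s % (a * b * c) + 4 * (a * b * c) ≡ s [MOD a * b * c] := by
    simp [Nat.ModEq]
  have := Nat.mod_lt s hM
  refine ⟨s % (a * b * c) + 4 * (a * b * c), by omega, by omega, ?_, ?_, ?_⟩
  · exact Nat.modEq_zero_iff_dvd.1 (((e.of_mul_right c).trans s1).of_mul_right b |>.trans r1)
  · exact (Nat.modEq_iff_dvd' (by omega)).1
      (((e.of_mul_right c).trans s1).of_mul_left a |>.trans r2).symm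
  · have h3 := ((e.of_mul_left _).trans s2).add_right 1
    rw [Nat.sub_add_cancel hc] at h3
    exact Nat.modEq_zero_iff_dvd.1 (h3.trans (Nat.modEq_zero_iff_dvd.2 dvd_rfl))

theorem cop {A B : Finset ℕ} (hA : ∀ p ∈ A, p.Prime) (hB : ∀ p ∈ B, p.Prime)
    (h : ∀ p ∈ B, p ∉ A) : (∏ p ∈ A, p).Coprime (∏ p ∈ B, p) :=
  Nat.Coprime.prod_left fun p hp => Nat.Coprime.prod_right fun q hq =>
    (Nat.coprime_primes (hA p hp) (hB q hq)).2 fun e => h q hq (e ▸ hp)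

theorem moduli (J : ℕ) {τ : ℝ} (h0 : 0 < τ) (h1 : τ ≤ 1)
    (h : 8 ≤ τ ^ 3 * Real.log ((2 ^ J : ℕ) + 1)) :
    ∃ Q₁ Q₂ Q₃ : ℕ, 0 < Q₁ ∧ 0 < Q₂ ∧ 0 < Q₃ ∧ (2 ^ J * Q₁).Coprime Q₂ ∧
      (2 ^ J * Q₁ * Q₂).Coprime Q₃ ∧ Q₁ * Q₂ * Q₃ ≤ 4 ^ 2 ^ J ∧ (Q₁.totient : ℝ) ≤ Q₁ * τ ∧
      (Q₂.totient : ℝ) ≤ Q₂ * τ ∧ (Q₃.totient : ℝ) ≤ Q₃ * τ := by
  set P := (2 ^ J + 1).primesBelow with hP
  have hPp : ∀ p ∈ P, p.Prime := fun p hp => Nat.prime_of_mem_primesBelow hp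
  have hS : ∀ p ∈ P \ (P ∩ {2}), p.Prime := fun p hp => hPp p (mem_sdiff.1 hp).1
  have e1 := den_sdiff (inter_subset_left (s₁ := P) (s₂ := {2}))
  have e2 : 1 / 2 ≤ den (P ∩ {2}) := by
    rcases subset_singleton_iff.1 (inter_subset_right (s₁ := P) (s₂ := {2})) with e | e <;>
      rw [e, den] <;> norm_num
  have e3 := mertens (2 ^ J)
  have e4 := den_pos hS
  have e5 : 0 < Real.log ((2 ^ J : ℕ) + 1) := by
    by_contra k
    nlinarith [pow_pos h0 3]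
  obtain ⟨A, B, C, hA, hB, hC, a, b, c⟩ := exists_three h0 h1 _ hS (by
    refine le_of_mul_le_mul_right ?_ e5
    rw [← hP, ← e1] at e3
    nlinarith [mul_le_mul_of_nonneg_left e2 (mul_pos e4 e5).le])
  have hC' : C ⊆ (P \ (P ∩ {2})) \ A := hC ▸ sdiff_subset
  have pA : ∀ p ∈ A, p.Prime := fun p hp => hS p (hA hp)
  have pB : ∀ p ∈ B, p.Prime := fun p hp => hS p (mem_sdiff.1 (hB hp)).1
  have pC : ∀ p ∈ C, p.Prime := fun p hp => hS p (mem_sdiff.1 (hC' hp)).1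
  have two : ∀ T ⊆ (P \ (P ∩ {2})) \ A, (2 ^ J).Coprime (∏ p ∈ T, p) := fun T hT =>
    Nat.Coprime.pow_left _ (Nat.Coprime.prod_right fun q hq => by
      have k := mem_sdiff.1 (mem_sdiff.1 (hT hq)).1
      exact (Nat.coprime_primes Nat.prime_two (hPp q k.1)).2 fun e =>
        k.2 (mem_inter.2 ⟨k.1, mem_singleton.2 e.symm⟩))
  refine ⟨∏ p ∈ A, p, ∏ p ∈ B, p, ∏ p ∈ C, p, prod_pos fun p hp => (pA p hp).pos,
    prod_pos fun p hp => (pB p hp).pos, prod_pos fun p hp => (pC p hp).pos,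
    (two B hB).mul_left (cop pA pB fun p hp => (mem_sdiff.1 (hB hp)).2),
    ((two C hC').mul_left (cop pA pC fun p hp => (mem_sdiff.1 (hC' hp)).2)).mul_left
      (cop pB pC fun p hp => (mem_sdiff.1 (hC ▸ hp)).2), ?_, ?_, ?_, ?_⟩
  · rw [hC, mul_assoc, mul_comm (∏ p ∈ B, p), prod_sdiff hB, mul_comm, prod_sdiff hA]
    refine le_trans (prod_le_prod_of_subset_of_one_le' sdiff_subset fun p hp _ =>
      (hPp p hp).one_le) (primorial_le_four_pow (2 ^ J))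
  · rw [totient_prod pA]
    gcongr
  · rw [totient_prod pB]
    gcongr
  · rw [totient_prod pC]
    gcongr

theorem loglog {z n : ℕ} (hz : 8 ≤ z) (h1 : z ≤ n) (h2 : n ≤ 5 * (z * 4 ^ z)) :
    0 ≤ Real.log (Real.log n) ∧ Real.log (Real.log n) ≤ 8 * Real.log z := by
  have hz' : (8 : ℝ) ≤ z := by exact_mod_cast hz
  have hn' : (8 : ℝ) ≤ n := by exact_mod_cast hz.trans h1
  have a1 : 1 ≤ Real.log n := by
    rw [Real.le_log_iff_exp_le (by linarith)]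
    linarith [Real.exp_one_lt_d9]
  have a2 : Real.log n ≤ Real.log (5 * (z * 4 ^ z)) :=
    Real.log_le_log (by linarith) (by exact_mod_cast h2)
  rw [Real.log_mul (by norm_num) (by positivity), Real.log_mul (by positivity) (by positivity),
    Real.log_pow] at a2
  have a3 := Real.log_le_sub_one_of_pos (show (0 : ℝ) < 5 by norm_num)
  have a4 := Real.log_le_sub_one_of_pos (show (0 : ℝ) < 4 by norm_num)
  have a5 := Real.log_le_sub_one_of_pos (show (0 : ℝ) < z by linarith)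
  have a6 : Real.log n ≤ (z : ℝ) ^ 2 := by nlinarith
  have a7 := Real.log_le_log (by linarith) a6
  have a8 : 0 ≤ Real.log z := Real.log_nonneg (by linarith)
  rw [Real.log_pow] at a7
  push_cast at a7
  exact ⟨Real.log_nonneg a1, by linarith⟩

theorem main (N : ℕ) : ∃ n ≥ N,
    ({p : ℕ | p.Prime ∧ ∃ k < n, ∃ e₁ e₂ : ℤ, (e₁ = 1 ∨ e₁ = -1) ∧ (e₂ = 1 ∨ e₂ = -1) ∧
      (p : ℤ) = 2 ^ n + e₁ * 2 ^ k + e₂}.ncard : ℝ) * Real.log (Real.log n) ^ (1 / 3 : ℝ) ≤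
      28 * n := by
  obtain ⟨J, hJ⟩ : ∃ J, J = N + 16 := ⟨_, rfl⟩
  have hz : J < 2 ^ J := Nat.lt_two_pow_self
  have hz' : (16 : ℝ) ≤ (2 ^ J : ℕ) := by exact_mod_cast (by omega : 16 ≤ 2 ^ J)
  have hl : 8 ≤ Real.log (2 ^ J : ℕ) := by
    have : (16 : ℝ) ≤ J := by exact_mod_cast (by omega : 16 ≤ J)
    rw [Nat.cast_pow, Real.log_pow, Nat.cast_ofNat]
    nlinarith [Real.log_two_gt_d9]
  obtain ⟨L, hL0, hL⟩ : ∃ L : ℝ, 0 ≤ L ∧ L ^ 3 = Real.log (2 ^ J : ℕ) :=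
    ⟨_, by positivity, Real.rpow_inv_natCast_pow (by linarith) three_ne_zero⟩
  have hL2 : 2 ≤ L := le_of_not_gt fun k => by
    have := pow_lt_pow_left₀ k hL0 three_ne_zero
    linarith
  have hLz : L ≤ (2 ^ J : ℕ) := by
    have := Real.log_le_sub_one_of_pos (show (0 : ℝ) < (2 ^ J : ℕ) by linarith)
    nlinarith [sq_nonneg L]
  obtain ⟨Q₁, Q₂, Q₃, p1, p2, p3, c1, c2, hQ, t1, t2, t3⟩ := moduli J (τ := 2 / L)
    (by positivity) ((div_le_one (by linarith)).2 hL2) (by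
      have := Real.log_le_log (by linarith) (le_add_of_nonneg_right (a := ((2 ^ J : ℕ) : ℝ))
        zero_le_one)
      rw [div_pow, div_mul_eq_mul_div, le_div_iff₀ (by positivity), hL]
      linarith)
  obtain ⟨n, n1, n2, d1, d2, d3⟩ := crt (by positivity) p2 p3 c1 c2
  have l0 : 2 ^ J ≤ 2 ^ J * Q₁ * Q₂ * Q₃ := by
    rw [mul_assoc, mul_assoc]
    exact Nat.le_mul_of_pos_right _ (by positivity)
  have l1 : Q₁ ≤ 2 ^ J * Q₁ * Q₂ * Q₃ :=
    Nat.le_of_dvd (by positivity) ⟨2 ^ J * Q₂ * Q₃, by ring⟩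
  have l2 : Q₂ ≤ 2 ^ J * Q₁ * Q₂ * Q₃ :=
    Nat.le_of_dvd (by positivity) ⟨2 ^ J * Q₁ * Q₃, by ring⟩
  have l3 : Q₃ ≤ 2 ^ J * Q₁ * Q₂ * Q₃ := Nat.le_mul_of_pos_left _ (by positivity)
  have n3 : n ≤ 5 * (2 ^ J * 4 ^ 2 ^ J) := by
    refine n2.trans (Nat.mul_le_mul_left 5 ?_)
    rw [mul_assoc, mul_assoc, ← mul_assoc Q₁]
    exact Nat.mul_le_mul_left _ hQ
  refine ⟨n, by omega, ?_⟩
  have hc := card_le (by omega) l0 l1 l2 l3 p1 p2 p3 ((dvd_mul_right _ _).trans d1)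
    ((dvd_mul_left _ _).trans d1) d2 d3
  have k0 := count_dvd (Q := 2 ^ J) (n := n) (by omega) (n - 1)
  have k1 := count_coprime (n := n) p1 (by omega) t1 (n - 1)
  have k2 := count_coprime (n := n) p2 (by omega) t2 0
  have k3 := count_coprime (n := n) p3 (by omega) t3 1
  obtain ⟨g0, g1⟩ := loglog (z := 2 ^ J) (n := n) (by omega) (by omega) n3
  have g2 : Real.log (Real.log n) ^ (1 / 3 : ℝ) ≤ 2 * L := by
    rw [one_div, Real.rpow_inv_le_iff_of_pos g0 (by positivity) (by norm_num)]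
    rw [show (3 : ℝ) = (3 : ℕ) by norm_num, Real.rpow_natCast, mul_pow, hL]
    linarith
  have k4 : (#{k ∈ range n | 2 ^ J ∣ k + (n - 1)} : ℝ) * L ≤ 2 * n :=
    (mul_le_mul_of_nonneg_left hLz (Nat.cast_nonneg _)).trans k0
  have e : 2 * (2 / L) * n * L = 4 * n := by field_simp; ring
  refine (mul_le_mul (Nat.cast_le.2 hc) g2 (by positivity) (Nat.cast_nonneg _)).trans ?_
  push_cast
  nlinarith [mul_le_mul_of_nonneg_right k1 hL0, mul_le_mul_of_nonneg_right k2 hL0,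
    mul_le_mul_of_nonneg_right k3 hL0]

end Pool.Agent.MP_0df29f_nt
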